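import Mathlib

set_option autoImplicit false

/-!
# A PFA-computable language whose syntactic convex monoid is not finitely presentable
-/

namespace Pool.Agent.Results.MP_492578_lc.NotFinitelyPresentable

/-- A convex monoid: a monoid which is also a convex set, given by the operations
`cc r x y = x +_r y` (meaning `r x + (1 - r) y`) for `r` in `[0, 1]` with the usual laws of convex
combinations, such that the multiplication is affine in each variable. -/
class ConvexMonoid (X : Type) extends Monoid X where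
  /-- the convex combination `r x + (1 - r) y` -/
  cc : unitInterval → X → X → X
  cc_one : ∀ x y : X, cc 1 x y = x
  cc_self : ∀ (r : unitInterval) (x : X), cc r x x = x
  cc_symm : ∀ (r : unitInterval) (x y : X), cc r x y = cc (unitInterval.symm r) y x
  cc_assoc : ∀ (p q r : unitInterval) (x y z : X),
    (1 - (p : ℝ) * q) * r = (1 - p) * q → cc q (cc p x y) z = cc (p * q) x (cc r y z)
  mul_cc : ∀ (r : unitInterval) (x y z : X), x * cc r y z = cc r (x * y) (x * z)
  cc_mul : ∀ (r : unitInterval) (x y z : X), cc r x y * z = cc r (x * z) (y * z)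

open ConvexMonoid

/-- The free convex monoid on the set `G`: the finitely supported probability distributions on the
words over `G`. They are the elements of the monoid algebra with nonnegative coefficients of sum
`1`; the product is the product of the monoid algebra (the bi-affine extension of the
concatenation). -/
def Free (G : Type) : Type :=
  {p : MonoidAlgebra ℝ (FreeMonoid G) // (∀ w, 0 ≤ p.coeff w) ∧ p.coeff.sum (fun _ r => r) = 1}

/-- The affine extension of a real function `L` of words to distributions: the expected value. -/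
noncomputable def expect {G : Type} (L : FreeMonoid G → ℝ) (p : MonoidAlgebra ℝ (FreeMonoid G)) :
    ℝ :=
  p.coeff.sum (fun w r => r * L w)

section expect
variable {G : Type} (L : FreeMonoid G → ℝ)

theorem expect_add (p q : MonoidAlgebra ℝ (FreeMonoid G)) :
    expect L (p + q) = expect L p + expect L q := by
  unfold expect
  rw [MonoidAlgebra.coeff_add, Finsupp.sum_add_index']
  · simp
  · intro w a b; ring

theorem expect_smul (c : ℝ) (p : MonoidAlgebra ℝ (FreeMonoid G)) :
    expect L (c • p) = c * expect L p := by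
  unfold expect
  rw [MonoidAlgebra.coeff_smul, Finsupp.sum_smul_index (by simp), Finsupp.mul_sum]
  simp only [mul_assoc]

theorem expect_single (w : FreeMonoid G) (c : ℝ) :
    expect L (MonoidAlgebra.single w c) = c * L w := by
  unfold expect
  rw [MonoidAlgebra.coeff_single, Finsupp.sum_single_index (by simp)]

end expect

theorem total_eq {G : Type} (p : MonoidAlgebra ℝ (FreeMonoid G)) :
    p.coeff.sum (fun _ r => r) = expect (fun _ => 1) p := by
  simp [expect]

theorem total_mul {G : Type} (p q : MonoidAlgebra ℝ (FreeMonoid G)) :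
    (p * q).coeff.sum (fun _ r => r) = p.coeff.sum (fun _ r => r) * q.coeff.sum (fun _ r => r) := by
  have h : ∀ p : MonoidAlgebra ℝ (FreeMonoid G),
      p.coeff.sum (fun _ r => r) = MonoidAlgebra.lift ℝ ℝ (FreeMonoid G) 1 p := by
    intro p
    simp [MonoidAlgebra.lift_apply]
  rw [h, h, h, map_mul]

theorem coeff_mul_nonneg {G : Type} {p q : MonoidAlgebra ℝ (FreeMonoid G)}
    (hp : ∀ w, 0 ≤ p.coeff w) (hq : ∀ w, 0 ≤ q.coeff w) (w : FreeMonoid G) :
    0 ≤ (p * q).coeff w := by
  classical
  rw [MonoidAlgebra.coeff_mul]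
  refine Finset.sum_nonneg fun a _ => Finset.sum_nonneg fun b _ => ?_
  dsimp only
  split_ifs
  · exact mul_nonneg (hp a) (hq b)
  · exact le_rfl

noncomputable instance {G : Type} : Mul (Free G) where
  mul p q := ⟨p.1 * q.1, coeff_mul_nonneg p.2.1 q.2.1, by rw [total_mul, p.2.2, q.2.2, one_mul]⟩

/-- The point distribution of a word. -/
noncomputable def pure {G : Type} (w : FreeMonoid G) : Free G :=
  ⟨MonoidAlgebra.single w 1, by
    classical
    intro v
    rw [MonoidAlgebra.coeff_single, Finsupp.single_apply]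
    split_ifs <;> norm_num, by
    rw [MonoidAlgebra.coeff_single, Finsupp.sum_single_index rfl]⟩

noncomputable instance {G : Type} : One (Free G) where
  one := pure 1

/-- The convex combination of two distributions. -/
noncomputable def comb {G : Type} (r : unitInterval) (p q : Free G) : Free G :=
  ⟨(r : ℝ) • p.1 + (1 - (r : ℝ)) • q.1, by
    intro w
    rw [MonoidAlgebra.coeff_add, MonoidAlgebra.coeff_smul, MonoidAlgebra.coeff_smul]
    simp only [Finsupp.coe_add, Finsupp.coe_smul, Pi.add_apply, Pi.smul_apply, smul_eq_mul]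
    have h1 := mul_nonneg r.2.1 (p.2.1 w)
    have h2 := mul_nonneg (sub_nonneg.2 r.2.2) (q.2.1 w)
    linarith, by
    rw [total_eq, expect_add, expect_smul, expect_smul, ← total_eq, ← total_eq, p.2.2, q.2.2]
    ring⟩

theorem val_mul {G : Type} (p q : Free G) : (p * q).1 = p.1 * q.1 := rfl
theorem val_one {G : Type} : (1 : Free G).1 = 1 := rfl
theorem val_pure {G : Type} (w : FreeMonoid G) :
    (pure w : Free G).1 = MonoidAlgebra.single w 1 := rfl
theorem val_comb {G : Type} (r : unitInterval) (p q : Free G) :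
    (comb r p q).1 = (r : ℝ) • p.1 + (1 - (r : ℝ)) • q.1 := rfl

noncomputable instance {G : Type} : ConvexMonoid (Free G) where
  mul_assoc p q r := Subtype.ext (mul_assoc p.1 q.1 r.1)
  one_mul p := Subtype.ext (one_mul p.1)
  mul_one p := Subtype.ext (mul_one p.1)
  cc := comb
  cc_one x y := by
    apply Subtype.ext
    rw [val_comb]
    simp
  cc_self r x := by
    apply Subtype.ext
    rw [val_comb]
    module
  cc_symm r x y := by
    apply Subtype.ext
    rw [val_comb, val_comb, unitInterval.coe_symm_eq]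
    module
  cc_assoc p q r x y z h := by
    apply Subtype.ext
    simp only [val_comb, Set.Icc.coe_mul, smul_add, smul_smul]
    rw [h, show (1 - (p : ℝ) * q) * (1 - r) = 1 - q from by linear_combination -h]
    module
  mul_cc r x y z := by
    apply Subtype.ext
    simp only [val_mul, val_comb, mul_add, mul_smul_comm]
  cc_mul r x y z := by
    apply Subtype.ext
    simp only [val_mul, val_comb, add_mul, smul_mul_assoc]

/-- The congruence of a convex monoid generated by a set `R` of pairs: the least equivalence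
relation containing `R` which is compatible with the multiplication and with all convex
combinations. -/
inductive Gen {X : Type} [ConvexMonoid X] (R : Set (X × X)) : X → X → Prop
  | of (x y : X) : (x, y) ∈ R → Gen R x y
  | refl (x : X) : Gen R x x
  | symm (x y : X) : Gen R x y → Gen R y x
  | trans (x y z : X) : Gen R x y → Gen R y z → Gen R x z
  | mul (x y x' y' : X) : Gen R x y → Gen R x' y' → Gen R (x * x') (y * y')
  | cc (r : unitInterval) (x y x' y' : X) :
      Gen R x y → Gen R x' y' → Gen R (cc r x x') (cc r y y')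

/-- Homomorphisms of convex monoids. -/
structure IsHom {X Y : Type} [ConvexMonoid X] [ConvexMonoid Y] (f : X → Y) : Prop where
  map_one : f 1 = 1
  map_mul : ∀ x y, f (x * y) = f x * f y
  map_cc : ∀ r x y, f (cc r x y) = cc r (f x) (f y)

/-- `M` is finitely presentable: it is isomorphic to the quotient of the free convex monoid on a
finite set by the congruence generated by finitely many pairs; in other words, there is a surjective
homomorphism from a free convex monoid on a finite set whose kernel is such a congruence. -/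
def FinitelyPresentable (M : Type) [ConvexMonoid M] : Prop :=
  ∃ (n : ℕ) (R : Set (Free (Fin n) × Free (Fin n))) (f : Free (Fin n) → M),
    R.Finite ∧ IsHom f ∧ Function.Surjective f ∧ ∀ p q, f p = f q ↔ Gen R p q

/-! ### Induction on distributions -/

theorem Free.induction {G : Type} {P : Free G → Prop} (h1 : ∀ w, P (pure w))
    (h2 : ∀ r p q, P p → P q → P (cc r p q)) (p : Free G) : P p := by
  classical
  suffices H : ∀ (n : ℕ) (p : Free G), p.1.coeff.support.card = n → P p from H _ p rfl
  intro n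
  induction n using Nat.strong_induction_on with
  | _ n ih =>
    intro p hp
    have hne : p.1.coeff.support.Nonempty := by
      rw [Finset.nonempty_iff_ne_empty]
      intro h
      have := p.2.2
      rw [Finsupp.sum, h, Finset.sum_empty] at this
      norm_num at this
    obtain ⟨w, hw⟩ := hne
    have hw0 : p.1.coeff w ≠ 0 := Finsupp.mem_support_iff.1 hw
    have hwpos : 0 < p.1.coeff w := lt_of_le_of_ne (p.2.1 w) (Ne.symm hw0)
    have hsum : p.1.coeff w + (p.1.erase w).coeff.sum (fun _ r => r) = 1 := by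
      have h := p.2.2
      rw [← MonoidAlgebra.single_add_erase w p.1, total_eq, expect_add, expect_single,
        ← total_eq] at h
      linarith
    have herase : ∀ v, 0 ≤ (p.1.erase w).coeff v := by
      intro v
      rw [MonoidAlgebra.coeff_erase]
      by_cases hv : v = w
      · subst hv; rw [Finsupp.erase_same]
      · rw [Finsupp.erase_ne hv]; exact p.2.1 v
    have hrest : 0 ≤ (p.1.erase w).coeff.sum (fun _ r => r) :=
      Finset.sum_nonneg fun v _ => herase v
    by_cases hone : p.1.coeff w = 1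
    · -- a point distribution
      have hzero : (p.1.erase w).coeff = 0 := by
        ext v
        have h0 : (p.1.erase w).coeff.sum (fun _ r => r) = 0 := by linarith
        by_contra hv
        have hv' : (p.1.erase w).coeff v ≠ 0 := hv
        have hpos := lt_of_le_of_ne (herase v) (Ne.symm hv')
        have := Finset.sum_pos' (fun v _ => herase v) ⟨v, Finsupp.mem_support_iff.2 hv', hpos⟩
        rw [Finsupp.sum] at h0
        linarith
      have : p = pure w := by
        apply Subtype.ext
        rw [val_pure, ← MonoidAlgebra.single_add_erase w p.1, hone]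
        have : p.1.erase w = 0 := by rw [← MonoidAlgebra.coeff_eq_zero]; exact hzero
        rw [this, add_zero]
      rw [this]
      exact h1 w
    · have hlt : p.1.coeff w < 1 := lt_of_le_of_ne (by linarith) hone
      set c : ℝ := 1 - p.1.coeff w with hc
      have hcpos : 0 < c := by linarith
      let q : Free G := ⟨c⁻¹ • p.1.erase w, by
        intro v
        rw [MonoidAlgebra.coeff_smul]
        exact mul_nonneg (inv_nonneg.2 hcpos.le) (herase v), by
        rw [total_eq, expect_smul, ← total_eq,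
          show (p.1.erase w).coeff.sum (fun _ r => r) = c by linarith]
        exact inv_mul_cancel₀ hcpos.ne'⟩
      have hq : q.1.coeff.support.card < n := by
        rw [← hp]
        apply Finset.card_lt_card
        refine (Finset.ssubset_iff_of_subset ?_).2 ⟨w, hw, ?_⟩
        · intro v hv
          rw [Finsupp.mem_support_iff] at hv ⊢
          intro h0
          apply hv
          show (c⁻¹ • p.1.erase w).coeff v = 0
          rw [MonoidAlgebra.coeff_smul, Finsupp.smul_apply, MonoidAlgebra.coeff_erase]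
          by_cases hvw : v = w
          · subst hvw; rw [Finsupp.erase_same, smul_zero]
          · rw [Finsupp.erase_ne hvw, h0, smul_zero]
        · rw [Finsupp.mem_support_iff, not_not]
          show (c⁻¹ • p.1.erase w).coeff w = 0
          rw [MonoidAlgebra.coeff_smul, Finsupp.smul_apply, MonoidAlgebra.coeff_erase,
            Finsupp.erase_same, smul_zero]
      have hpq : p = cc (⟨p.1.coeff w, hwpos.le, hlt.le⟩ : unitInterval) (pure w) q := by
        apply Subtype.ext
        show p.1 = (p.1.coeff w) • MonoidAlgebra.single w (1 : ℝ) + (1 - p.1.coeff w) •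
          (c⁻¹ • p.1.erase w)
        rw [smul_smul, ← hc, mul_inv_cancel₀ hcpos.ne', one_smul, MonoidAlgebra.smul_single,
          smul_eq_mul, mul_one, MonoidAlgebra.single_add_erase]
      rw [hpq]
      exact h2 _ _ _ (h1 w) (ih _ hq q rfl)

/-! ### The syntactic convex monoid and probabilistic automata -/

/-- The syntactic congruence of `L`: `μ ≈ ν` iff `L(x μ y) = L(x ν y)` for all words `x`, `y`, where
`L` is extended to distributions by taking expected values. -/
def SynRel {A : Type} (L : FreeMonoid A → ℝ) (μ ν : Free A) : Prop :=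
  ∀ x y : FreeMonoid A,
    expect L (pure x * μ * pure y : Free A).1 = expect L (pure x * ν * pure y : Free A).1

theorem expect_comb {G : Type} (L : FreeMonoid G → ℝ) (r : unitInterval) (p q : Free G) :
    expect L (cc r p q : Free G).1 = r * expect L p.1 + (1 - r) * expect L q.1 := by
  show expect L ((r : ℝ) • p.1 + (1 - (r : ℝ)) • q.1) = _
  rw [expect_add, expect_smul, expect_smul]

theorem pure_mul_pure {G : Type} (u v : FreeMonoid G) :
    (pure u * pure v : Free G) = pure (u * v) := by
  apply Subtype.ext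
  rw [val_mul, val_pure, val_pure, val_pure, MonoidAlgebra.single_mul_single, one_mul]

theorem SynRel.mul_left {A : Type} {L : FreeMonoid A → ℝ} {μ μ' : Free A} (h : SynRel L μ μ')
    (ν : Free A) : ∀ x y, expect L (pure x * (ν * μ) * pure y : Free A).1 =
      expect L (pure x * (ν * μ') * pure y : Free A).1 := by
  intro x y
  induction ν using Free.induction generalizing x y with
  | h1 w =>
    rw [← mul_assoc, ← mul_assoc, pure_mul_pure]
    exact h _ _
  | h2 r p q hp hq =>
    rw [cc_mul, cc_mul, mul_cc, mul_cc, cc_mul, cc_mul, expect_comb, expect_comb, hp, hq]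

theorem SynRel.mul_right {A : Type} {L : FreeMonoid A → ℝ} {μ μ' : Free A} (h : SynRel L μ μ')
    (ν : Free A) : ∀ x y, expect L (pure x * (μ * ν) * pure y : Free A).1 =
      expect L (pure x * (μ' * ν) * pure y : Free A).1 := by
  intro x y
  induction ν using Free.induction generalizing x y with
  | h1 w =>
    rw [mul_assoc, mul_assoc, mul_assoc, mul_assoc, pure_mul_pure, ← mul_assoc, ← mul_assoc]
    exact h _ _
  | h2 r p q hp hq =>
    rw [mul_cc, mul_cc, mul_cc, mul_cc, cc_mul, cc_mul, expect_comb, expect_comb, hp, hq]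

/-- The syntactic congruence as a congruence of the multiplicative monoid. -/
def synCon {A : Type} (L : FreeMonoid A → ℝ) : Con (Free A) where
  r := SynRel L
  iseqv := ⟨fun _ _ _ => rfl, fun h x y => (h x y).symm, fun h h' x y => (h x y).trans (h' x y)⟩
  mul' := fun {_ _ _ _} h h' x y => (h.mul_right _ x y).trans (h'.mul_left _ x y)

/-- The syntactic convex monoid of `L`: the quotient of the free convex monoid by the syntactic
congruence. -/
def Syn {A : Type} (L : FreeMonoid A → ℝ) : Type := (synCon L).Quotient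

/-- The quotient map. -/
def Syn.mk {A : Type} (L : FreeMonoid A → ℝ) (μ : Free A) : Syn L := Quotient.mk (synCon L).toSetoid μ

theorem Syn.mk_eq {A : Type} {L : FreeMonoid A → ℝ} {μ ν : Free A} :
    Syn.mk L μ = Syn.mk L ν ↔ SynRel L μ ν :=
  ⟨fun h => Quotient.exact h, fun h => Quotient.sound h⟩

theorem Syn.mk_surj {A : Type} {L : FreeMonoid A → ℝ} (x : Syn L) : ∃ μ, Syn.mk L μ = x :=
  Quotient.exists_rep x

noncomputable instance {A : Type} (L : FreeMonoid A → ℝ) : Monoid (Syn L) :=
  inferInstanceAs (Monoid (synCon L).Quotient)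

theorem SynRel.cc {A : Type} {L : FreeMonoid A → ℝ} (r : unitInterval) {μ μ' ν ν' : Free A}
    (h : SynRel L μ μ') (h' : SynRel L ν ν') : SynRel L (cc r μ ν) (cc r μ' ν') := by
  intro x y
  rw [mul_cc, mul_cc, cc_mul, cc_mul, expect_comb, expect_comb, h x y, h' x y]

/-- Convex combinations in the syntactic convex monoid, computed on representatives. -/
noncomputable def Syn.comb {A : Type} (L : FreeMonoid A → ℝ) (r : unitInterval) :
    Syn L → Syn L → Syn L :=
  Quotient.map₂ (ConvexMonoid.cc r) (fun _ _ h _ _ h' => SynRel.cc r h h')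

noncomputable instance {A : Type} (L : FreeMonoid A → ℝ) : ConvexMonoid (Syn L) where
  cc := Syn.comb L
  cc_one x y := by
    obtain ⟨x, rfl⟩ := Syn.mk_surj x
    obtain ⟨y, rfl⟩ := Syn.mk_surj y
    exact congrArg (Syn.mk L) (ConvexMonoid.cc_one x y)
  cc_self r x := by
    obtain ⟨x, rfl⟩ := Syn.mk_surj x
    exact congrArg (Syn.mk L) (ConvexMonoid.cc_self r x)
  cc_symm r x y := by
    obtain ⟨x, rfl⟩ := Syn.mk_surj x
    obtain ⟨y, rfl⟩ := Syn.mk_surj y
    exact congrArg (Syn.mk L) (ConvexMonoid.cc_symm r x y)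
  cc_assoc p q r x y z h := by
    obtain ⟨x, rfl⟩ := Syn.mk_surj x
    obtain ⟨y, rfl⟩ := Syn.mk_surj y
    obtain ⟨z, rfl⟩ := Syn.mk_surj z
    exact congrArg (Syn.mk L) (ConvexMonoid.cc_assoc p q r x y z h)
  mul_cc r x y z := by
    obtain ⟨x, rfl⟩ := Syn.mk_surj x
    obtain ⟨y, rfl⟩ := Syn.mk_surj y
    obtain ⟨z, rfl⟩ := Syn.mk_surj z
    exact congrArg (Syn.mk L) (ConvexMonoid.mul_cc r x y z)
  cc_mul r x y z := by
    obtain ⟨x, rfl⟩ := Syn.mk_surj x
    obtain ⟨y, rfl⟩ := Syn.mk_surj y
    obtain ⟨z, rfl⟩ := Syn.mk_surj z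
    exact congrArg (Syn.mk L) (ConvexMonoid.cc_mul r x y z)

/-- A probabilistic finite automaton over the alphabet `A`: a finite set of states, an initial
distribution, transition distributions and an output map with values in `[0, 1]`. -/
structure PFA (A : Type) where
  /-- the states -/
  Q : Type
  /-- there are finitely many states -/
  fin : Fintype Q
  /-- the initial distribution -/
  init : Q → ℝ
  init_mem : init ∈ stdSimplex ℝ Q
  /-- the transition distributions -/
  step : Q → A → Q → ℝ
  step_mem : ∀ q a, step q a ∈ stdSimplex ℝ Q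
  /-- the output map -/
  out : Q → ℝ
  out_mem : ∀ q, out q ∈ Set.Icc (0 : ℝ) 1

attribute [instance] PFA.fin

/-- The expected value of the output at the state reached by the random run on the given word, when
the current distribution on the states is `μ`. -/
noncomputable def PFA.value {A : Type} (M : PFA A) : (M.Q → ℝ) → List A → ℝ
  | μ, [] => ∑ q, μ q * M.out q
  | μ, a :: w => M.value (fun q' => ∑ q, μ q * M.step q a q') w

/-- `L` is computed by some probabilistic finite automaton. -/
def PFAComputable {A : Type} (L : FreeMonoid A → ℝ) : Prop :=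
  ∃ M : PFA A, ∀ w : FreeMonoid A, L w = M.value M.init w.toList

/-! ### Supports -/

/-- The support of a distribution. -/
def supp {G : Type} (p : Free G) : Set (FreeMonoid G) := {w | p.1.coeff w ≠ 0}

theorem mem_supp_pure {G : Type} {v w : FreeMonoid G} : w ∈ supp (pure v : Free G) ↔ w = v := by
  classical
  show (MonoidAlgebra.single v (1 : ℝ)).coeff w ≠ 0 ↔ _
  rw [MonoidAlgebra.coeff_single, Finsupp.single_apply]
  by_cases h : v = w
  · simp [h]
  · simp [h, Ne.symm h]

theorem mem_supp_cc {G : Type} {r : unitInterval} {p q : Free G} {w : FreeMonoid G} :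
    w ∈ supp (cc r p q) ↔ (r ≠ 0 ∧ w ∈ supp p) ∨ (r ≠ 1 ∧ w ∈ supp q) := by
  show ((r : ℝ) • p.1 + (1 - (r : ℝ)) • q.1).coeff w ≠ 0 ↔ _
  have e : ((r : ℝ) • p.1 + (1 - (r : ℝ)) • q.1).coeff w =
      (r : ℝ) * p.1.coeff w + (1 - (r : ℝ)) * q.1.coeff w := by
    rw [MonoidAlgebra.coeff_add, MonoidAlgebra.coeff_smul, MonoidAlgebra.coeff_smul]
    rfl
  rw [e]
  have h1 := mul_nonneg r.2.1 (p.2.1 w)
  have h2 := mul_nonneg (sub_nonneg.2 r.2.2) (q.2.1 w)
  have e1 : (r ≠ 0 ∧ w ∈ supp p) ↔ (r : ℝ) * p.1.coeff w ≠ 0 := by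
    rw [mul_ne_zero_iff, ← unitInterval.coe_ne_zero]
    rfl
  have e2 : (r ≠ 1 ∧ w ∈ supp q) ↔ (1 - (r : ℝ)) * q.1.coeff w ≠ 0 := by
    rw [mul_ne_zero_iff, sub_ne_zero, ← unitInterval.coe_ne_one]
    exact and_congr_left fun _ => ne_comm
  rw [e1, e2]
  constructor
  · intro h
    by_contra hc
    push Not at hc
    rw [hc.1, hc.2] at h
    simp at h
  · rintro (h | h)
    · have := lt_of_le_of_ne h1 (Ne.symm h)
      linarith
    · have := lt_of_le_of_ne h2 (Ne.symm h)
      linarith

theorem mem_supp_mul {G : Type} {p q : Free G} {w : FreeMonoid G} :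
    w ∈ supp (p * q) ↔ ∃ a ∈ supp p, ∃ b ∈ supp q, a * b = w := by
  induction p using Free.induction with
  | h1 u =>
    induction q using Free.induction with
    | h1 v =>
      rw [pure_mul_pure, mem_supp_pure]
      constructor
      · rintro rfl
        exact ⟨u, mem_supp_pure.2 rfl, v, mem_supp_pure.2 rfl, rfl⟩
      · rintro ⟨a, ha, b, hb, rfl⟩
        rw [mem_supp_pure.1 ha, mem_supp_pure.1 hb]
    | h2 r p q hp hq =>
      rw [mul_cc, mem_supp_cc, hp, hq]
      constructor
      · rintro (⟨h, a, ha, b, hb, rfl⟩ | ⟨h, a, ha, b, hb, rfl⟩)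
        · exact ⟨a, ha, b, mem_supp_cc.2 (Or.inl ⟨h, hb⟩), rfl⟩
        · exact ⟨a, ha, b, mem_supp_cc.2 (Or.inr ⟨h, hb⟩), rfl⟩
      · rintro ⟨a, ha, b, hb, rfl⟩
        rcases mem_supp_cc.1 hb with ⟨h, hb⟩ | ⟨h, hb⟩
        · exact Or.inl ⟨h, a, ha, b, hb, rfl⟩
        · exact Or.inr ⟨h, a, ha, b, hb, rfl⟩
  | h2 r p p' hp hp' =>
    rw [cc_mul, mem_supp_cc, hp, hp']
    constructor
    · rintro (⟨h, a, ha, b, hb, rfl⟩ | ⟨h, a, ha, b, hb, rfl⟩)
      · exact ⟨a, mem_supp_cc.2 (Or.inl ⟨h, ha⟩), b, hb, rfl⟩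
      · exact ⟨a, mem_supp_cc.2 (Or.inr ⟨h, ha⟩), b, hb, rfl⟩
    · rintro ⟨a, ha, b, hb, rfl⟩
      rcases mem_supp_cc.1 ha with ⟨h, ha⟩ | ⟨h, ha⟩
      · exact Or.inl ⟨h, a, ha, b, hb, rfl⟩
      · exact Or.inr ⟨h, a, ha, b, hb, rfl⟩

theorem supp_nonempty {G : Type} (p : Free G) : (supp p).Nonempty := by
  induction p using Free.induction with
  | h1 w => exact ⟨w, mem_supp_pure.2 rfl⟩
  | h2 r p q hp hq =>
    obtain ⟨a, ha⟩ := hp
    obtain ⟨b, hb⟩ := hq
    by_cases h : r = 0
    · refine ⟨b, mem_supp_cc.2 (Or.inr ⟨?_, hb⟩)⟩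
      rw [h]; exact zero_ne_one
    · exact ⟨a, mem_supp_cc.2 (Or.inl ⟨h, ha⟩)⟩

theorem supp_finite {G : Type} (p : Free G) : (supp p).Finite := by
  refine Set.Finite.subset (Finset.finite_toSet p.1.coeff.support) ?_
  intro w hw
  exact Finsupp.mem_support_iff.2 hw

/-! ### A congruence defined by a set of words -/

/-- `p` and `q` cannot be distinguished by the set `W` of words. -/
def Theta {G : Type} (W : Set (FreeMonoid G)) (p q : Free G) : Prop :=
  ∀ x y : FreeMonoid G, (∀ w ∈ supp p, x * w * y ∈ W) ↔ (∀ w ∈ supp q, x * w * y ∈ W)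

theorem theta_of_gen {G : Type} {W : Set (FreeMonoid G)} {R : Set (Free G × Free G)}
    (hR : ∀ p q, (p, q) ∈ R → Theta W p q) {p q : Free G} (h : Gen R p q) : Theta W p q := by
  induction h with
  | of x y h => exact hR _ _ h
  | refl x => exact fun _ _ => Iff.rfl
  | symm x y _ ih => exact fun a b => (ih a b).symm
  | trans x y z _ _ ih1 ih2 => exact fun a b => (ih1 a b).trans (ih2 a b)
  | mul p q p' q' _ _ ih1 ih2 =>
    intro x y
    constructor
    · intro h w hw
      obtain ⟨a, ha, b, hb, rfl⟩ := mem_supp_mul.1 hw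
      have h1 : ∀ a ∈ supp q, ∀ b ∈ supp p', x * (a * b) * y ∈ W := by
        intro a ha b hb
        have h2 := (ih1 x (b * y)).1 (fun c hc => by
          have := h (c * b) (mem_supp_mul.2 ⟨c, hc, b, hb, rfl⟩)
          simpa only [mul_assoc] using this) a ha
        simpa only [mul_assoc] using h2
      have h3 := (ih2 (x * a) y).1 (fun c hc => by
        have := h1 a ha c hc
        simpa only [mul_assoc] using this) b hb
      simpa only [mul_assoc] using h3
    · intro h w hw
      obtain ⟨a, ha, b, hb, rfl⟩ := mem_supp_mul.1 hw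
      have h1 : ∀ a ∈ supp p, ∀ b ∈ supp q', x * (a * b) * y ∈ W := by
        intro a ha b hb
        have h2 := (ih1 x (b * y)).2 (fun c hc => by
          have := h (c * b) (mem_supp_mul.2 ⟨c, hc, b, hb, rfl⟩)
          simpa only [mul_assoc] using this) a ha
        simpa only [mul_assoc] using h2
      have h3 := (ih2 (x * a) y).2 (fun c hc => by
        have := h1 a ha c hc
        simpa only [mul_assoc] using this) b hb
      simpa only [mul_assoc] using h3
  | cc r p q p' q' _ _ ih1 ih2 =>
    have key : ∀ (p p' : Free G) (x y : FreeMonoid G), (∀ w ∈ supp (cc r p p'), x * w * y ∈ W) ↔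
        (r ≠ 0 → ∀ w ∈ supp p, x * w * y ∈ W) ∧ (r ≠ 1 → ∀ w ∈ supp p', x * w * y ∈ W) := by
      intro p p' x y
      constructor
      · intro h
        exact ⟨fun hr w hw => h w (mem_supp_cc.2 (Or.inl ⟨hr, hw⟩)),
          fun hr w hw => h w (mem_supp_cc.2 (Or.inr ⟨hr, hw⟩))⟩
      · rintro ⟨h1, h2⟩ w hw
        rcases mem_supp_cc.1 hw with ⟨hr, hw⟩ | ⟨hr, hw⟩
        · exact h1 hr w hw
        · exact h2 hr w hw
    intro x y
    rw [key, key, ih1 x y, ih2 x y]

/-! ### Pairs of valuations -/

/-- A pair of multiplicative affine functions with values in the region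
`0 < s ≤ 1`, `s² ≤ t ≤ 1`. -/
structure Val {X : Type} [ConvexMonoid X] (s t : X → ℝ) : Prop where
  mul1 : ∀ p q, s (p * q) = s p * s q
  mul2 : ∀ p q, t (p * q) = t p * t q
  one1 : s 1 = 1
  one2 : t 1 = 1
  cc1 : ∀ r p q, s (cc r p q) = r * s p + (1 - r) * s q
  cc2 : ∀ r p q, t (cc r p q) = r * t p + (1 - r) * t q
  pos : ∀ p, 0 < s p
  le : ∀ p, s p ≤ 1
  sq : ∀ p, s p ^ 2 ≤ t p
  le2 : ∀ p, t p ≤ 1

section val
variable {G : Type} {s t : Free G → ℝ} (hv : Val s t)
include hv

theorem Val.ext {p : Free G} (h : t p = s p ^ 2) :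
    ∀ w ∈ supp p, s (pure w) = s p ∧ t (pure w) = t p := by
  induction p using Free.induction with
  | h1 w =>
    intro v hv'
    rw [mem_supp_pure.1 hv']
    exact ⟨rfl, rfl⟩
  | h2 r p q hp hq =>
    have hr0 := r.2.1
    have hr1 := r.2.2
    have e1 := hv.cc1 r p q
    have e2 := hv.cc2 r p q
    have sp := hv.sq p
    have sq := hv.sq q
    rw [e1, e2] at h
    have hmul : (r : ℝ) * (1 - r) * (s p - s q) ^ 2 + r * (t p - s p ^ 2) +
        (1 - r) * (t q - s q ^ 2) = 0 := by linear_combination h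
    have n1 : 0 ≤ (r : ℝ) * (1 - r) * (s p - s q) ^ 2 :=
      mul_nonneg (mul_nonneg hr0 (sub_nonneg.2 hr1)) (sq_nonneg _)
    have n2 : 0 ≤ (r : ℝ) * (t p - s p ^ 2) := mul_nonneg hr0 (by linarith)
    have n3 : 0 ≤ (1 - (r : ℝ)) * (t q - s q ^ 2) := mul_nonneg (sub_nonneg.2 hr1) (by linarith)
    have z1 : (r : ℝ) * (1 - r) * (s p - s q) ^ 2 = 0 := by linarith
    have z2 : (r : ℝ) * (t p - s p ^ 2) = 0 := by linarith
    have z3 : (1 - (r : ℝ)) * (t q - s q ^ 2) = 0 := by linarith
    intro w hw
    rcases mem_supp_cc.1 hw with ⟨h0, hw⟩ | ⟨h0, hw⟩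
    · have hr : (r : ℝ) ≠ 0 := unitInterval.coe_ne_zero.2 h0
      have htp : t p = s p ^ 2 := by
        have := (mul_eq_zero.1 z2).resolve_left hr
        linarith
      obtain ⟨i1, i2⟩ := hp htp w hw
      rw [i1, i2, e1, e2]
      by_cases h1 : (r : ℝ) = 1
      · rw [h1]; constructor <;> ring
      · have hs : s p = s q := by
          have := (mul_eq_zero.1 z1).resolve_left
            (mul_ne_zero hr (sub_ne_zero.2 (Ne.symm h1)))
          have := pow_eq_zero_iff (two_ne_zero) |>.1 this
          linarith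
        have htq : t q = s q ^ 2 := by
          have := (mul_eq_zero.1 z3).resolve_left (sub_ne_zero.2 (Ne.symm h1))
          linarith
        rw [htp, htq, hs]
        constructor <;> ring
    · have hr : (1 - (r : ℝ)) ≠ 0 := sub_ne_zero.2 (Ne.symm (unitInterval.coe_ne_one.2 h0))
      have htq : t q = s q ^ 2 := by
        have := (mul_eq_zero.1 z3).resolve_left hr
        linarith
      obtain ⟨i1, i2⟩ := hq htq w hw
      rw [i1, i2, e1, e2]
      by_cases h1 : (r : ℝ) = 0
      · rw [h1]; constructor <;> ring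
      · have hs : s p = s q := by
          have := (mul_eq_zero.1 z1).resolve_left (mul_ne_zero h1 hr)
          have := pow_eq_zero_iff (two_ne_zero) |>.1 this
          linarith
        have htp : t p = s p ^ 2 := by
          have := (mul_eq_zero.1 z2).resolve_left h1
          linarith
        rw [htp, htq, hs]
        constructor <;> ring

theorem Val.const {p : Free G} {c d : ℝ} (h : ∀ w ∈ supp p, s (pure w) = c ∧ t (pure w) = d) :
    s p = c ∧ t p = d := by
  induction p using Free.induction with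
  | h1 w => exact h w (mem_supp_pure.2 rfl)
  | h2 r p q hp hq =>
    rw [hv.cc1, hv.cc2]
    by_cases h0 : r = 0
    · have := hq (fun w hw => h w (mem_supp_cc.2 (Or.inr ⟨by rw [h0]; exact zero_ne_one, hw⟩)))
      rw [this.1, this.2, h0]
      simp
    by_cases h1 : r = 1
    · have := hp (fun w hw => h w (mem_supp_cc.2 (Or.inl ⟨h0, hw⟩)))
      rw [this.1, this.2, h1]
      simp
    have i1 := hp (fun w hw => h w (mem_supp_cc.2 (Or.inl ⟨h0, hw⟩)))
    have i2 := hq (fun w hw => h w (mem_supp_cc.2 (Or.inr ⟨h1, hw⟩)))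
    rw [i1.1, i1.2, i2.1, i2.2]
    constructor <;> ring

/-- The set of words with value `(1, 1)` or `(2 ^ (-D), 4 ^ (-D))`. -/
theorem Val.pair {D : ℕ} {p q : Free G} (h1 : s p = s q) (h2 : t p = t q)
    (hD : ∀ w ∈ supp p, (1 / 2 : ℝ) ^ D < s (pure w)) (x y : FreeMonoid G)
    (h : ∀ w ∈ supp p, x * w * y ∈ {w : FreeMonoid G | (s (pure w) = 1 ∧ t (pure w) = 1) ∨
      (s (pure w) = (1 / 2) ^ D ∧ t (pure w) = ((1 / 2) ^ D) ^ 2)}) :
    ∀ w ∈ supp q, x * w * y ∈ {w : FreeMonoid G | (s (pure w) = 1 ∧ t (pure w) = 1) ∨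
      (s (pure w) = (1 / 2) ^ D ∧ t (pure w) = ((1 / 2) ^ D) ^ 2)} := by
  have ms : ∀ w, s (pure (x * w * y)) = s (pure x) * s (pure w) * s (pure y) := by
    intro w
    rw [← pure_mul_pure, ← pure_mul_pure, hv.mul1, hv.mul1]
  have mt : ∀ w, t (pure (x * w * y)) = t (pure x) * t (pure w) * t (pure y) := by
    intro w
    rw [← pure_mul_pure, ← pure_mul_pure, hv.mul2, hv.mul2]
  have hX := hv.pos (pure x)
  have hY := hv.pos (pure y)
  have hX1 := hv.le (pure x)
  have hY1 := hv.le (pure y)
  have hX2 := hv.sq (pure x)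
  have hY2 := hv.sq (pure y)
  have hX3 : 0 < t (pure x) := lt_of_lt_of_le (by positivity) hX2
  have hY3 : 0 < t (pure y) := lt_of_lt_of_le (by positivity) hY2
  have hz : (0 : ℝ) < (1 / 2) ^ D := by positivity
  set z : ℝ := (1 / 2) ^ D with hzdef
  simp only [Set.mem_ofPred_eq, ms, mt] at h ⊢
  by_cases hex : ∃ w ∈ supp p, s (pure x) * s (pure w) * s (pure y) = 1
  · obtain ⟨w0, hw0, e0⟩ := hex
    have a1 : s (pure w0) ≤ 1 := hv.le _
    have a0 : 0 < s (pure w0) := hv.pos _
    have hXY : s (pure x) = 1 ∧ s (pure y) = 1 := by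
      constructor
      · have : s (pure w0) * s (pure y) ≤ 1 := mul_le_one₀ a1 hY.le hY1
        nlinarith
      · have : s (pure x) * s (pure w0) ≤ 1 := mul_le_one₀ hX1 a0.le a1
        nlinarith
    have tX : t (pure x) = 1 := le_antisymm (hv.le2 _) (by rw [hXY.1] at hX2; linarith)
    have tY : t (pure y) = 1 := le_antisymm (hv.le2 _) (by rw [hXY.2] at hY2; linarith)
    rw [hXY.1, hXY.2, tX, tY] at h ⊢
    have hall : ∀ w ∈ supp p, s (pure w) = 1 ∧ t (pure w) = 1 := by
      intro w hw
      rcases h w hw with ⟨b1, b2⟩ | ⟨b1, _⟩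
      · exact ⟨by linarith, by linarith⟩
      · have := hD w hw
        linarith
    obtain ⟨c1, c2⟩ := hv.const hall
    have : t q = s q ^ 2 := by rw [← h1, ← h2, c1, c2]; norm_num
    intro w hw
    obtain ⟨d1, d2⟩ := hv.ext this w hw
    left
    rw [d1, d2, ← h1, ← h2, c1, c2]
    norm_num
  · push Not at hex
    have hall : ∀ w ∈ supp p, s (pure x) * s (pure w) * s (pure y) = z ∧
        t (pure x) * t (pure w) * t (pure y) = z ^ 2 := by
      intro w hw
      rcases h w hw with ⟨b1, _⟩ | b
      · exact absurd b1 (hex w hw)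
      · exact b
    obtain ⟨w0, hw0⟩ := supp_nonempty p
    have hc : ∀ w ∈ supp p, s (pure w) = s (pure w0) ∧ t (pure w) = t (pure w0) := by
      intro w hw
      have b := hall w hw
      have b0 := hall w0 hw0
      constructor
      · have : s (pure x) * s (pure y) * s (pure w) = s (pure x) * s (pure y) * s (pure w0) := by
          linarith [b.1, b0.1]
        exact mul_left_cancel₀ (mul_pos hX hY).ne' this
      · have : t (pure x) * t (pure y) * t (pure w) = t (pure x) * t (pure y) * t (pure w0) := by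
          linarith [b.2, b0.2]
        exact mul_left_cancel₀ (mul_pos hX3 hY3).ne' this
    obtain ⟨c1, c2⟩ := hv.const hc
    have b0 := hall w0 hw0
    have hsq := hv.sq (pure w0)
    have h0 : 0 < s (pure w0) := hv.pos _
    have hkey : t (pure w0) = s (pure w0) ^ 2 := by
      apply le_antisymm _ hsq
      have e : t (pure x) * t (pure w0) * t (pure y) =
          (s (pure x)) ^ 2 * (s (pure w0)) ^ 2 * (s (pure y)) ^ 2 := by
        rw [b0.2, ← b0.1]; ring
      have hprod : s (pure x) ^ 2 * s (pure y) ^ 2 ≤ t (pure x) * t (pure y) :=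
        mul_le_mul hX2 hY2 (by positivity) hX3.le
      by_contra hlt
      push Not at hlt
      have p1 : 0 < t (pure x) * t (pure y) := mul_pos hX3 hY3
      have : t (pure x) * t (pure y) * s (pure w0) ^ 2 < t (pure x) * t (pure y) * t (pure w0) :=
        mul_lt_mul_of_pos_left hlt p1
      have p2 : 0 ≤ s (pure w0) ^ 2 := by positivity
      have := mul_le_mul_of_nonneg_right hprod p2
      linarith
    have : t q = s q ^ 2 := by rw [← h1, ← h2, c1, c2, hkey]
    intro w hw
    obtain ⟨d1, d2⟩ := hv.ext this w hw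
    right
    rw [d1, d2, ← h1, ← h2, c1, c2]
    exact b0

end val

/-! ### The language -/

variable {A : Type}

/-- The function `w ↦ c ^ |w|`. -/
def geo (c : ℝ) (w : FreeMonoid A) : ℝ := c ^ w.toList.length

theorem geo_mul (c : ℝ) (v w : FreeMonoid A) : geo c (v * w) = geo c v * geo c w := by
  unfold geo
  rw [FreeMonoid.toList_mul, List.length_append, pow_add]

theorem geo_one (c : ℝ) : geo c (1 : FreeMonoid A) = 1 := by
  unfold geo
  simp

theorem expect_geo_mul (c : ℝ) (p q : Free A) :
    expect (geo c) (p * q).1 = expect (geo c) p.1 * expect (geo c) q.1 := by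
  let F : FreeMonoid A →* ℝ := ⟨⟨geo c, geo_one c⟩, geo_mul c⟩
  have h : ∀ p : MonoidAlgebra ℝ (FreeMonoid A),
      expect (geo c) p = MonoidAlgebra.lift ℝ ℝ (FreeMonoid A) F p := by
    intro p
    rw [MonoidAlgebra.lift_apply]
    rfl
  rw [h, h, h, val_mul, map_mul]

theorem expect_geo_pure (c : ℝ) (w : FreeMonoid A) :
    expect (geo c) (pure w : Free A).1 = geo c w := by
  rw [val_pure, expect_single, one_mul]

/-- The probabilistic language `w ↦ (2 ^ (-|w|) + 4 ^ (-|w|)) / 2`. -/
noncomputable def lang (w : FreeMonoid A) : ℝ := (geo (1 / 2) w + geo (1 / 4) w) / 2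

theorem expect_lang (p : MonoidAlgebra ℝ (FreeMonoid A)) :
    expect lang p = (expect (geo (1 / 2)) p + expect (geo (1 / 4)) p) / 2 := by
  unfold expect
  rw [← Finsupp.sum_add, Finsupp.sum, Finsupp.sum, Finset.sum_div]
  refine Finset.sum_congr rfl fun w _ => ?_
  unfold lang
  ring

theorem synRel_iff [Nonempty A] {μ ν : Free A} :
    SynRel lang μ ν ↔ expect (geo (1 / 2)) μ.1 = expect (geo (1 / 2)) ν.1 ∧
      expect (geo (1 / 4)) μ.1 = expect (geo (1 / 4)) ν.1 := by
  constructor
  · intro h
    have h1 := h 1 1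
    have h2 := h (FreeMonoid.of (Classical.arbitrary A)) 1
    simp only [expect_lang, expect_geo_mul, expect_geo_pure, geo_one, mul_one, one_mul] at h1 h2
    have g : ∀ c : ℝ, geo c (FreeMonoid.of (Classical.arbitrary A)) = c := by
      intro c
      unfold geo
      simp
    rw [g, g] at h2
    constructor <;> linarith
  · rintro ⟨h1, h2⟩ x y
    simp only [expect_lang, expect_geo_mul, expect_geo_pure, h1, h2]

theorem geo_bounds (μ : Free A) :
    0 < expect (geo (1 / 2)) μ.1 ∧ expect (geo (1 / 2)) μ.1 ≤ 1 ∧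
      expect (geo (1 / 2)) μ.1 ^ 2 ≤ expect (geo (1 / 4)) μ.1 ∧ expect (geo (1 / 4)) μ.1 ≤ 1 := by
  induction μ using Free.induction with
  | h1 w =>
    rw [expect_geo_pure, expect_geo_pure]
    unfold geo
    refine ⟨by positivity, pow_le_one₀ (by norm_num) (by norm_num), ?_,
      pow_le_one₀ (by norm_num) (by norm_num)⟩
    rw [← pow_mul, mul_comm, pow_mul]
    norm_num
  | h2 r p q hp hq =>
    obtain ⟨a1, a2, a3, a4⟩ := hp
    obtain ⟨b1, b2, b3, b4⟩ := hq
    rw [expect_comb, expect_comb]
    have hr0 := r.2.1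
    have hr1 := sub_nonneg.2 r.2.2
    set A := expect (geo (1 / 2)) p.1
    set B := expect (geo (1 / 4)) p.1
    set A' := expect (geo (1 / 2)) q.1
    set B' := expect (geo (1 / 4)) q.1
    refine ⟨?_, ?_, ?_, ?_⟩
    · rcases hr0.eq_or_lt with h | h
      · have h' : (r : ℝ) = 0 := h.symm
        rw [h']
        linarith
      · have := mul_pos h a1
        have := mul_nonneg hr1 b1.le
        linarith
    · nlinarith
    · have h1 := mul_le_mul_of_nonneg_left a3 hr0
      have h2 := mul_le_mul_of_nonneg_left b3 hr1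
      have h3 := mul_nonneg (mul_nonneg hr0 hr1) (sq_nonneg (A - A'))
      nlinarith
    · nlinarith

/-- The value of `geo (1 / 2)` on the syntactic convex monoid. -/
noncomputable def sv [Nonempty A] : Syn (lang (A := A)) → ℝ :=
  Quotient.lift (fun μ : Free A => expect (geo (1 / 2)) μ.1) (fun _ _ h => (synRel_iff.1 h).1)

/-- The value of `geo (1 / 4)` on the syntactic convex monoid. -/
noncomputable def tv [Nonempty A] : Syn (lang (A := A)) → ℝ :=
  Quotient.lift (fun μ : Free A => expect (geo (1 / 4)) μ.1) (fun _ _ h => (synRel_iff.1 h).2)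

theorem sv_mk [Nonempty A] (μ : Free A) : sv (Syn.mk lang μ) = expect (geo (1 / 2)) μ.1 := rfl
theorem tv_mk [Nonempty A] (μ : Free A) : tv (Syn.mk lang μ) = expect (geo (1 / 4)) μ.1 := rfl

theorem mk_mul (μ ν : Free A) : Syn.mk lang μ * Syn.mk lang ν = Syn.mk lang (μ * ν) := rfl
theorem mk_one : (1 : Syn (lang (A := A))) = Syn.mk lang 1 := rfl
theorem mk_cc (r : unitInterval) (μ ν : Free A) :
    cc r (Syn.mk lang μ) (Syn.mk lang ν) = Syn.mk lang (cc r μ ν) := rfl

theorem val_of_hom [Nonempty A] {n : ℕ} {f : Free (Fin n) → Syn (lang (A := A))} (hf : IsHom f) :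
    Val (fun p => sv (f p)) (fun p => tv (f p)) := by
  constructor
  · intro p q
    obtain ⟨μ, hμ⟩ := Syn.mk_surj (f p)
    obtain ⟨ν, hν⟩ := Syn.mk_surj (f q)
    simp only [hf.map_mul, ← hμ, ← hν, mk_mul, sv_mk, expect_geo_mul]
  · intro p q
    obtain ⟨μ, hμ⟩ := Syn.mk_surj (f p)
    obtain ⟨ν, hν⟩ := Syn.mk_surj (f q)
    simp only [hf.map_mul, ← hμ, ← hν, mk_mul, tv_mk, expect_geo_mul]
  · show sv (f 1) = 1
    rw [hf.map_one, mk_one, sv_mk]
    exact (expect_geo_pure _ _).trans (geo_one _)
  · show tv (f 1) = 1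
    rw [hf.map_one, mk_one, tv_mk]
    exact (expect_geo_pure _ _).trans (geo_one _)
  · intro r p q
    obtain ⟨μ, hμ⟩ := Syn.mk_surj (f p)
    obtain ⟨ν, hν⟩ := Syn.mk_surj (f q)
    simp only [hf.map_cc, ← hμ, ← hν, mk_cc, sv_mk, expect_comb]
  · intro r p q
    obtain ⟨μ, hμ⟩ := Syn.mk_surj (f p)
    obtain ⟨ν, hν⟩ := Syn.mk_surj (f q)
    simp only [hf.map_cc, ← hμ, ← hν, mk_cc, tv_mk, expect_comb]
  all_goals
    intro p
    obtain ⟨μ, hμ⟩ := Syn.mk_surj (f p)
    have h := geo_bounds μ
    simp only [← hμ, sv_mk, tv_mk]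
  · exact h.1
  · exact h.2.1
  · exact h.2.2.1
  · exact h.2.2.2

theorem not_fp [Nonempty A] : ¬ FinitelyPresentable (Syn (lang (A := A))) := by
  rintro ⟨n, R, f, hR, hf, hsurj, hker⟩
  have hv := val_of_hom hf
  set s : Free (Fin n) → ℝ := fun p => sv (f p) with hs
  set t : Free (Fin n) → ℝ := fun p => tv (f p) with ht
  -- a word of value one half
  obtain ⟨p, hp⟩ := hsurj (Syn.mk lang (pure (FreeMonoid.of (Classical.arbitrary A))))
  have g : ∀ c : ℝ, geo c (FreeMonoid.of (Classical.arbitrary A)) = c := by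
    intro c
    unfold geo
    simp
  have sp : s p = 1 / 2 := by
    show sv (f p) = _
    rw [hp, sv_mk, expect_geo_pure, g]
  have tp : t p = 1 / 4 := by
    show tv (f p) = _
    rw [hp, tv_mk, expect_geo_pure, g]
  obtain ⟨w, hw⟩ := supp_nonempty p
  obtain ⟨sw, tw⟩ := hv.ext (p := p) (by rw [sp, tp]; norm_num) w hw
  rw [sp] at sw
  rw [tp] at tw
  -- the exponent `D`
  have hfin : (⋃ a ∈ R, (supp a.1 ∪ supp a.2)).Finite :=
    hR.biUnion fun a _ => (supp_finite a.1).union (supp_finite a.2)
  have hev : ∀ᶠ D : ℕ in Filter.atTop, ∀ v ∈ (⋃ a ∈ R, (supp a.1 ∪ supp a.2)),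
      (1 / 2 : ℝ) ^ D < s (pure v) := by
    rw [Filter.eventually_all_finite hfin]
    intro v _
    exact (tendsto_pow_atTop_nhds_zero_of_lt_one (by norm_num) (by norm_num)).eventually_lt_const
      (hv.pos (pure v))
  obtain ⟨D, hD, hD2⟩ := (hev.and (Filter.eventually_ge_atTop 2)).exists
  set z : ℝ := (1 / 2) ^ D with hz
  have hz0 : 0 < z := by positivity
  have hz1 : z ≤ 1 / 4 := by
    calc z ≤ (1 / 2) ^ 2 := pow_le_pow_of_le_one (by norm_num) (by norm_num) hD2
      _ = 1 / 4 := by norm_num
  let W : Set (FreeMonoid (Fin n)) := {w | (s (pure w) = 1 ∧ t (pure w) = 1) ∨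
      (s (pure w) = (1 / 2) ^ D ∧ t (pure w) = ((1 / 2) ^ D) ^ 2)}
  have hRW : ∀ p q, (p, q) ∈ R → Theta W p q := by
    intro p q hpq x y
    have hfpq : f p = f q := (hker p q).2 (Gen.of _ _ hpq)
    have e1 : s p = s q := congrArg sv hfpq
    have e2 : t p = t q := congrArg tv hfpq
    have m1 : ∀ v ∈ supp p, (1 / 2 : ℝ) ^ D < s (pure v) := fun v hvp =>
      hD v (Set.mem_biUnion hpq (Or.inl hvp))
    have m2 : ∀ v ∈ supp q, (1 / 2 : ℝ) ^ D < s (pure v) := fun v hvq =>
      hD v (Set.mem_biUnion hpq (Or.inr hvq))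
    exact ⟨fun h => hv.pair e1 e2 m1 x y h, fun h => hv.pair e1.symm e2.symm m2 x y h⟩
  -- the two distributions
  have hden : 0 < 1 - z ^ 2 := by nlinarith
  let lam : unitInterval := ⟨z * (1 - 2 * z) / (2 * (1 - z ^ 2)), by
    apply div_nonneg
    · exact mul_nonneg hz0.le (by linarith)
    · linarith, by
    rw [div_le_one (by linarith)]
    nlinarith⟩
  let mu : unitInterval := ⟨z * (2 - z) / (1 - z ^ 2), by
    apply div_nonneg
    · exact mul_nonneg hz0.le (by linarith)
    · linarith, by
    rw [div_le_one (by linarith)]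
    nlinarith⟩
  have hlam : (lam : ℝ) = z * (1 - 2 * z) / (2 * (1 - z ^ 2)) := rfl
  have hmu : (mu : ℝ) = z * (2 - z) / (1 - z ^ 2) := rfl
  have spow : ∀ k : ℕ, s (pure (w ^ k)) = (1 / 2) ^ k := by
    intro k
    induction k with
    | zero => rw [pow_zero, pow_zero]; exact hv.one1
    | succ k ih => rw [pow_succ, pow_succ, ← pure_mul_pure, hv.mul1, ih, sw]
  have tpow : ∀ k : ℕ, t (pure (w ^ k)) = (1 / 4) ^ k := by
    intro k
    induction k with
    | zero => rw [pow_zero, pow_zero]; exact hv.one2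
    | succ k ih => rw [pow_succ, pow_succ, ← pure_mul_pure, hv.mul2, ih, tw]
  have hz4 : ((1 / 4 : ℝ)) ^ D = z ^ 2 := by
    rw [hz, ← pow_mul, mul_comm, pow_mul]
    norm_num
  have s1 : s (pure 1) = 1 := hv.one1
  have t1 : t (pure 1) = 1 := hv.one2
  set p0 : Free (Fin n) := cc lam (pure 1) (pure (w ^ D)) with hp0
  set q0 : Free (Fin n) := cc mu (pure w) (pure (w ^ (D + 1))) with hq0
  have p2 : (1 / 2 : ℝ) ^ (D + 1) = z / 2 := by rw [pow_succ, ← hz]; ring
  have p4 : (1 / 4 : ℝ) ^ (D + 1) = z ^ 2 / 4 := by rw [pow_succ, hz4]; ring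
  have es : s p0 = s q0 := by
    rw [hp0, hq0, hv.cc1, hv.cc1, spow, spow, s1, sw, hlam, hmu, p2, ← hz]
    field_simp
    ring
  have et : t p0 = t q0 := by
    rw [hp0, hq0, hv.cc2, hv.cc2, tpow, tpow, t1, tw, hlam, hmu, p4, hz4]
    field_simp
    ring
  have hfeq : f p0 = f q0 := by
    obtain ⟨μ, hμ⟩ := Syn.mk_surj (f p0)
    obtain ⟨ν, hν⟩ := Syn.mk_surj (f q0)
    have e1 : sv (f p0) = sv (f q0) := es
    have e2 : tv (f p0) = tv (f q0) := et
    rw [← hμ, ← hν] at e1 e2 ⊢
    exact Syn.mk_eq.2 (synRel_iff.2 ⟨e1, e2⟩)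
  have hT := theta_of_gen hRW ((hker p0 q0).1 hfeq) 1 1
  have h1 : ∀ v ∈ supp p0, 1 * v * 1 ∈ W := by
    intro v hvp
    rw [one_mul, mul_one]
    rcases mem_supp_cc.1 hvp with ⟨_, h⟩ | ⟨_, h⟩
    · rw [mem_supp_pure.1 h]
      exact Or.inl ⟨s1, t1⟩
    · rw [mem_supp_pure.1 h]
      exact Or.inr ⟨spow D, (tpow D).trans hz4⟩
  have h2 := hT.1 h1 w (by
    rw [hq0, mem_supp_cc]
    left
    refine ⟨?_, mem_supp_pure.2 rfl⟩
    rw [← unitInterval.coe_ne_zero, hmu]
    have : 0 < z * (2 - z) / (1 - z ^ 2) := by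
      apply div_pos _ hden
      exact mul_pos hz0 (by linarith)
    exact this.ne')
  rw [one_mul, mul_one] at h2
  rcases h2 with ⟨h2, _⟩ | ⟨h2, _⟩
  · rw [sw] at h2
    norm_num at h2
  · rw [sw] at h2
    linarith

/-! ### The automaton -/

/-- The automaton computing `lang`. -/
noncomputable def aut (A : Type) : PFA A where
  Q := Fin 3
  fin := inferInstance
  init := ![1 / 2, 1 / 2, 0]
  init_mem := by
    refine ⟨?_, ?_⟩
    · intro i
      fin_cases i <;> norm_num
    · simp [Fin.sum_univ_three]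
      norm_num
  step := fun q _ => ![![1 / 2, 0, 1 / 2], ![0, 1 / 4, 3 / 4], ![0, 0, 1]] q
  step_mem := by
    intro q _
    refine ⟨?_, ?_⟩
    · intro i
      fin_cases q <;> fin_cases i <;> norm_num
    · fin_cases q <;> simp [Fin.sum_univ_three] <;> norm_num
  out := ![1, 1, 0]
  out_mem := by
    intro q
    fin_cases q <;> norm_num

theorem aut_value (w : List A) : ∀ μ : Fin 3 → ℝ,
    (aut A).value μ w = μ 0 * (1 / 2) ^ w.length + μ 1 * (1 / 4) ^ w.length := by
  induction w with
  | nil =>
    intro μ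
    show ∑ q : Fin 3, μ q * (![1, 1, 0] : Fin 3 → ℝ) q = _
    simp [Fin.sum_univ_three]
  | cons a w ih =>
    intro μ
    refine (ih (fun q' : Fin 3 => ∑ q : Fin 3, μ q *
      (![![1 / 2, 0, 1 / 2], ![0, 1 / 4, 3 / 4], ![0, 0, 1]] : Fin 3 → Fin 3 → ℝ) q q')).trans ?_
    simp only [Fin.sum_univ_three, List.length_cons, pow_succ]
    simp
    ring

theorem lang_computable : PFAComputable (lang (A := A)) := by
  refine ⟨aut A, fun w => ?_⟩
  refine Eq.trans ?_ (aut_value w.toList (aut A).init).symm
  show lang w = (![1 / 2, 1 / 2, 0] : Fin 3 → ℝ) 0 * _ + (![1 / 2, 1 / 2, 0] : Fin 3 → ℝ) 1 * _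
  unfold lang geo
  simp
  ring

/-- **Theorem.** Over every nonempty alphabet `A` there is a probabilistic language `L`, computed by
a probabilistic finite automaton, whose syntactic convex monoid is not finitely presentable. -/
theorem result (A : Type) [Nonempty A] : ∃ L : FreeMonoid A → ℝ,
    PFAComputable L ∧ (∀ w, L w ∈ Set.Icc (0 : ℝ) 1) ∧ ¬ FinitelyPresentable (Syn L) := by
  refine ⟨lang, lang_computable, ?_, not_fp⟩
  intro w
  have h1 : ∀ c : ℝ, 0 ≤ c → c ≤ 1 → 0 ≤ geo c w ∧ geo c w ≤ 1 := fun c h0 h1 =>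
    ⟨pow_nonneg h0 _, pow_le_one₀ h0 h1⟩
  have a := h1 (1 / 2) (by norm_num) (by norm_num)
  have b := h1 (1 / 4) (by norm_num) (by norm_num)
  unfold lang
  constructor <;> linarith

end Pool.Agent.Results.MP_492578_lc.NotFinitelyPresentable
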